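import Mathlib
import Pool.Agent.T9h47.SF.Sharp

/-!
# Three disjoint 3-cycles, generation of the alternating group, and a count
-/

set_option autoImplicit false
set_option linter.unusedSectionVars false

namespace Pool.Agent.T9h47.MM

open Finset Equiv Equiv.Perm
open Pool.Agent.T9h47.SF

variable {Ω : Type} [Fintype Ω] [DecidableEq Ω]

/-- the 3-cycle on the `i`-th line of `e` -/
def cyc (e : Fin 3 × Fin 3 ↪ Ω) (i : Fin 3) : Perm Ω :=
  swap (e (i, 0)) (e (i, 1)) * swap (e (i, 1)) (e (i, 2))

/-- a transposition inverting `cyc e i` -/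
def flp (e : Fin 3 × Fin 3 ↪ Ω) (i : Fin 3) : Perm Ω := swap (e (i, 0)) (e (i, 1))

variable (e : Fin 3 × Fin 3 ↪ Ω)

theorem e_ne {i j b c : Fin 3} (h : ¬ (i = j ∧ b = c)) : e (i, b) ≠ e (j, c) := by
  intro h'
  have h2 := e.injective h'
  rw [Prod.mk.injEq] at h2
  exact h h2

theorem evOn_cyc' {U : Finset Ω} (i : Fin 3) (h : ∀ b, e (i, b) ∈ U) : EvOn U (cyc e i) :=
  evOn_cyc (e_ne e (fun h => absurd h.2 (by decide))) (e_ne e (fun h => absurd h.2 (by decide)))
    (h 0) (h 1) (h 2)

theorem cyc_pow (i : Fin 3) : cyc e i * (cyc e i * cyc e i) = 1 := by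
  have h01 : e (i, 0) ≠ e (i, 1) := e_ne e (fun h => absurd h.2 (by decide))
  have h12 : e (i, 1) ≠ e (i, 2) := e_ne e (fun h => absurd h.2 (by decide))
  have h02 : e (i, 0) ≠ e (i, 2) := e_ne e (fun h => absurd h.2 (by decide))
  obtain ⟨h1, h2, h3⟩ := cyc_apply h01 h12 h02
  apply Equiv.ext
  intro x
  rw [Perm.mul_apply, Perm.mul_apply, Perm.one_apply]
  change (swap (e (i, 0)) (e (i, 1)) * swap (e (i, 1)) (e (i, 2)))
    ((swap (e (i, 0)) (e (i, 1)) * swap (e (i, 1)) (e (i, 2)))
    ((swap (e (i, 0)) (e (i, 1)) * swap (e (i, 1)) (e (i, 2))) x)) = x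
  by_cases hx0 : x = e (i, 0)
  · rw [hx0, h2, h3, h1]
  by_cases hx1 : x = e (i, 1)
  · rw [hx1, h3, h1, h2]
  by_cases hx2 : x = e (i, 2)
  · rw [hx2, h1, h2, h3]
  have h4 : (swap (e (i, 0)) (e (i, 1)) * swap (e (i, 1)) (e (i, 2))) x = x := by
    rw [Perm.mul_apply, swap_apply_of_ne_of_ne hx1 hx2, swap_apply_of_ne_of_ne hx0 hx1]
  rw [h4, h4, h4]

theorem flp_cyc (i : Fin 3) : flp e i * cyc e i * (flp e i)⁻¹ = (cyc e i)⁻¹ := by
  unfold flp cyc
  rw [mul_inv_rev, swap_inv, swap_inv, ← mul_assoc, swap_mul_self, one_mul]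

theorem swap_comm_of {a b c d : Ω} (h1 : a ≠ c) (h2 : a ≠ d) (h3 : b ≠ c) (h4 : b ≠ d) :
    swap a b * swap c d = swap c d * swap a b := by
  have h5 : swap c d * swap a b * (swap c d)⁻¹ = swap (swap c d a) (swap c d b) :=
    (swap_apply_apply _ _ _).symm
  rw [swap_apply_of_ne_of_ne h1 h2, swap_apply_of_ne_of_ne h3 h4] at h5
  exact (mul_inv_eq_iff_eq_mul.1 h5).symm

theorem flp_comm {i j : Fin 3} (hij : i ≠ j) : flp e i * cyc e j = cyc e j * flp e i := by
  unfold flp cyc
  have h1 : swap (e (i, 0)) (e (i, 1)) * swap (e (j, 0)) (e (j, 1)) =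
      swap (e (j, 0)) (e (j, 1)) * swap (e (i, 0)) (e (i, 1)) :=
    swap_comm_of (e_ne e (fun h => hij h.1)) (e_ne e (fun h => hij h.1))
      (e_ne e (fun h => hij h.1)) (e_ne e (fun h => hij h.1))
  have h2 : swap (e (i, 0)) (e (i, 1)) * swap (e (j, 1)) (e (j, 2)) =
      swap (e (j, 1)) (e (j, 2)) * swap (e (i, 0)) (e (i, 1)) :=
    swap_comm_of (e_ne e (fun h => hij h.1)) (e_ne e (fun h => hij h.1))
      (e_ne e (fun h => hij h.1)) (e_ne e (fun h => hij h.1))
  rw [← mul_assoc, h1, mul_assoc, h2, ← mul_assoc]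

theorem cyc_comm (i j : Fin 3) : cyc e i * cyc e j = cyc e j * cyc e i := by
  by_cases hij : i = j
  · rw [hij]
  have h1 := flp_comm e hij
  have h2 : swap (e (i, 1)) (e (i, 2)) * cyc e j = cyc e j * swap (e (i, 1)) (e (i, 2)) := by
    unfold cyc
    have h1 : swap (e (i, 1)) (e (i, 2)) * swap (e (j, 0)) (e (j, 1)) =
        swap (e (j, 0)) (e (j, 1)) * swap (e (i, 1)) (e (i, 2)) :=
      swap_comm_of (e_ne e (fun h => hij h.1)) (e_ne e (fun h => hij h.1))
        (e_ne e (fun h => hij h.1)) (e_ne e (fun h => hij h.1))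
    have h2 : swap (e (i, 1)) (e (i, 2)) * swap (e (j, 1)) (e (j, 2)) =
        swap (e (j, 1)) (e (j, 2)) * swap (e (i, 1)) (e (i, 2)) :=
      swap_comm_of (e_ne e (fun h => hij h.1)) (e_ne e (fun h => hij h.1))
        (e_ne e (fun h => hij h.1)) (e_ne e (fun h => hij h.1))
    rw [← mul_assoc, h1, mul_assoc, h2, ← mul_assoc]
  have h3 : cyc e i = flp e i * swap (e (i, 1)) (e (i, 2)) := rfl
  rw [h3, mul_assoc, h2, ← mul_assoc, h1, mul_assoc]

/-! ### generation -/

theorem evOn_three (K : Subgroup (Perm Ω)) {x y z : Ω} (hxy : x ≠ y) (hyz : y ≠ z) (hxz : x ≠ z)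
    (hc : swap x y * swap y z ∈ K) {g : Perm Ω} (hg : EvOn {x, y, z} g) : g ∈ K := by
  obtain ⟨h1, h2, h3⟩ := cyc_apply hxy hyz hxz
  -- the case where `y` is fixed
  have key : ∀ g : Perm Ω, EvOn {x, y, z} g → g y = y → g = 1 := by
    intro g hg hy
    have hin : ∀ w, w ∈ ({x, y, z} : Finset Ω) → g w ∈ ({x, y, z} : Finset Ω) := by
      intro w hw
      by_contra h
      have h4 := hg.1 _ h
      have h5 : g w = w := g.injective h4
      rw [h5] at h
      exact h hw
    have hx := hin x (by simp)
    rw [mem_insert, mem_insert, mem_singleton] at hx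
    have hz := hin z (by simp)
    rw [mem_insert, mem_insert, mem_singleton] at hz
    have hxy' : g x ≠ y := fun h => hxy (g.injective (h.trans hy.symm))
    have hzy' : g z ≠ y := fun h => hyz (g.injective (h.trans hy.symm)).symm
    rcases hx with hx | hx | hx
    · have hz' : g z = z := by
        rcases hz with h | h | h
        · exact absurd (g.injective (hx.trans h.symm)) hxz
        · exact absurd h hzy'
        · exact h
      apply Equiv.ext
      intro w
      rw [Perm.one_apply]
      by_cases hw : w ∈ ({x, y, z} : Finset Ω)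
      · rw [mem_insert, mem_insert, mem_singleton] at hw
        rcases hw with h | h | h
        · rw [h, hx]
        · rw [h, hy]
        · rw [h, hz']
      · exact hg.1 w hw
    · exact absurd hx hxy'
    · have hz' : g z = x := by
        rcases hz with h | h | h
        · exact h
        · exact absurd h hzy'
        · exact absurd (g.injective (hx.trans h.symm)) hxz
      have h6 : g = swap x z := by
        apply Equiv.ext
        intro w
        by_cases hwx : w = x
        · rw [hwx, hx, swap_apply_left]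
        by_cases hwz : w = z
        · rw [hwz, hz', swap_apply_right]
        rw [swap_apply_of_ne_of_ne hwx hwz]
        by_cases hwy : w = y
        · rw [hwy, hy]
        · exact hg.1 w (by simp [hwx, hwy, hwz])
      have h7 := hg.2
      rw [h6, sign_swap hxz] at h7
      exact absurd h7 (by decide)
  have hcE : EvOn {x, y, z} (swap x y * swap y z) :=
    evOn_cyc hxy hyz (by simp) (by simp) (by simp)
  have hin : g y ∈ ({x, y, z} : Finset Ω) := by
    by_contra h
    have h4 := hg.1 _ h
    have h5 : g y = y := g.injective h4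
    rw [h5] at h
    exact h (by simp)
  rw [mem_insert, mem_insert, mem_singleton] at hin
  rcases hin with h | h | h
  · -- g y = x; c x = y
    have h5 := key (swap x y * swap y z * g) (hcE.mul hg) (by rw [Perm.mul_apply, h, h2])
    have h6 : g = (swap x y * swap y z)⁻¹ := by
      rw [eq_inv_iff_mul_eq_one]
      have h7 := congrArg (fun u => (swap x y * swap y z)⁻¹ * u * (swap x y * swap y z)) h5
      simpa [mul_assoc] using h7
    rw [h6]
    exact K.inv_mem hc
  · rw [key g hg h]
    exact K.one_mem
  · have h5 := key ((swap x y * swap y z)⁻¹ * g) (hcE.inv.mul hg)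
      (by rw [Perm.mul_apply, h, Perm.inv_eq_iff_eq, h3])
    rw [inv_mul_eq_one] at h5
    rw [← h5]
    exact hc

theorem gen_star (K : Subgroup (Perm Ω)) {y z : Ω} (hyz : y ≠ z)
    (hc : ∀ x, x ≠ y → x ≠ z → swap x y * swap y z ∈ K) {g : Perm Ω} (hg : sign g = 1) :
    g ∈ K := by
  by_cases hx0 : ∃ x0 : Ω, x0 ≠ y ∧ x0 ≠ z
  · obtain ⟨x0, hxy, hxz⟩ := hx0
    have key : ∀ S : Finset Ω, ∀ g, EvOn ({x0, y, z} ∪ S) g → g ∈ K := by
      intro S
      induction S using Finset.induction_on with
      | empty =>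
        intro g hg
        rw [union_empty] at hg
        exact evOn_three K hxy hyz hxz (hc x0 hxy hxz) hg
      | insert x S hx ih =>
        intro g hg
        rw [union_insert] at hg
        by_cases hxU : x ∈ ({x0, y, z} : Finset Ω) ∪ S
        · rw [insert_eq_of_mem hxU] at hg
          exact ih g hg
        · refine ext_one_pt K (y := y) (z := z) hxU (by simp) (by simp) hyz ih ?_ ?_ hg
          · refine hc x ?_ ?_
            · intro h; apply hxU; rw [h]; simp
            · intro h; apply hxU; rw [h]; simp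
          · have h3 : ({x0, y, z} : Finset Ω).card = 3 := by
              rw [card_eq_three]
              exact ⟨x0, y, z, hxy, hxz, hyz, rfl⟩
            calc 3 = ({x0, y, z} : Finset Ω).card := h3.symm
              _ ≤ _ := card_le_card subset_union_left
    refine key univ g ⟨fun x hx => ?_, hg⟩
    exact absurd (mem_union_right _ (mem_univ x)) hx
  · push Not at hx0
    -- only two points: `g = 1`
    have hg1 : g = 1 := by
      have hall : ∀ w : Ω, w = y ∨ w = z := by
        intro w
        by_cases h : w = y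
        · exact Or.inl h
        · exact Or.inr (hx0 w h)
      by_cases hgy : g y = y
      · apply Equiv.ext
        intro w
        rw [Perm.one_apply]
        rcases hall w with h | h
        · rw [h, hgy]
        · rw [h]
          rcases hall (g z) with h2 | h2
          · exact absurd (g.injective (h2.trans hgy.symm)).symm hyz
          · exact h2
      · have hgy' : g y = z := by
          rcases hall (g y) with h | h
          · exact absurd h hgy
          · exact h
        have hgz : g z = y := by
          rcases hall (g z) with h | h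
          · exact h
          · exact absurd (g.injective (h.trans hgy'.symm)) hyz.symm
        have h6 : g = swap y z := by
          apply Equiv.ext
          intro w
          rcases hall w with h | h
          · rw [h, hgy', swap_apply_left]
          · rw [h, hgz, swap_apply_right]
        rw [h6, sign_swap hyz] at hg
        exact absurd hg (by decide)
    rw [hg1]
    exact K.one_mem

/-! ### counting permutations with prescribed values -/

/-- permutations with three prescribed values -/
theorem card_fiber (p y : Fin 3 ↪ Ω) :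
    (univ.filter (fun g : Perm Ω => ∀ i, g (p i) = y i)).card *
      (Fintype.card Ω).descFactorial 3 = Fintype.card (Perm Ω) := by
  classical
  have hconst : ∀ y' : Fin 3 ↪ Ω, (univ.filter (fun g : Perm Ω => ∀ i, g (p i) = y' i)).card =
      (univ.filter (fun g : Perm Ω => ∀ i, g (p i) = y i)).card := by
    intro y'
    have h1 : MulAction.IsMultiplyPretransitive (Perm Ω) Ω 3 := Equiv.Perm.isMultiplyPretransitive Ω 3
    obtain ⟨h, hh⟩ := h1.exists_smul_eq y' y
    have hh' : ∀ i, h (y' i) = y i := by
      intro i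
      rw [← hh]
      rfl
    refine card_bij (fun g _ => h * g) ?_ ?_ ?_
    · intro g hg
      rw [mem_filter] at hg ⊢
      refine ⟨mem_univ _, fun i => ?_⟩
      rw [Perm.mul_apply, hg.2 i, hh' i]
    · intro g _ g' _ hgg
      exact mul_left_cancel hgg
    · intro g hg
      rw [mem_filter] at hg
      refine ⟨h⁻¹ * g, ?_, by rw [mul_inv_cancel_left]⟩
      rw [mem_filter]
      refine ⟨mem_univ _, fun i => ?_⟩
      rw [Perm.mul_apply, hg.2 i, Perm.inv_eq_iff_eq, hh' i]
  have hsum : ∑ y' : Fin 3 ↪ Ω, (univ.filter (fun g : Perm Ω => ∀ i, g (p i) = y' i)).card =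
      Fintype.card (Perm Ω) := by
    have h2 := card_eq_sum_card_fiberwise (s := (univ : Finset (Perm Ω)))
      (t := (univ : Finset (Fin 3 ↪ Ω))) (f := fun g => p.trans g.toEmbedding)
      (fun g _ => by simp)
    rw [← card_univ, h2]
    refine sum_congr rfl fun y' _ => ?_
    congr 1
    ext g
    rw [mem_filter, mem_filter]
    constructor
    · rintro ⟨_, h⟩
      refine ⟨mem_univ _, ?_⟩
      apply Function.Embedding.ext
      intro i
      exact h i
    · rintro ⟨_, h⟩
      refine ⟨mem_univ _, fun i => ?_⟩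
      rw [← h]
      rfl
  rw [sum_congr rfl (fun y' _ => hconst y'), sum_const, card_univ, Fintype.card_embedding_eq,
    Fintype.card_fin, smul_eq_mul] at hsum
  rw [mul_comm]
  exact hsum

/-- permutations for which each of the three lines of `g ∘ e` meets `Δ` -/
theorem card_hit (Δ : Finset Ω) :
    (univ.filter (fun g : Perm Ω => ∀ i, ∃ b, g (e (i, b)) ∈ Δ)).card *
      (Fintype.card Ω).descFactorial 3 ≤
      27 * Δ.card.descFactorial 3 * Fintype.card (Perm Ω) := by
  classical
  obtain ⟨pb, hpb⟩ : ∃ pb : (Fin 3 → Fin 3) → (Fin 3 ↪ Ω), ∀ b i, pb b i = e (i, b i) := by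
    refine ⟨fun b => ⟨fun i => e (i, b i), ?_⟩, fun b i => rfl⟩
    intro i j hij
    have h := e.injective hij
    exact (Prod.mk.injEq _ _ _ _ ▸ h).1
  have hsub : univ.filter (fun g : Perm Ω => ∀ i, ∃ b, g (e (i, b)) ∈ Δ) ⊆
      (univ : Finset ((Fin 3 → Fin 3) × (Fin 3 ↪ {x // x ∈ Δ}))).biUnion (fun by' =>
        univ.filter (fun g : Perm Ω => ∀ i, g (pb by'.1 i) =
          (by'.2.trans (Function.Embedding.subtype _)) i)) := by
    intro g hg
    rw [mem_filter] at hg
    choose b hb using hg.2
    rw [mem_biUnion]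
    refine ⟨(b, ⟨fun i => ⟨g (e (i, b i)), hb i⟩, ?_⟩), mem_univ _, ?_⟩
    · intro i j hij
      have h := congrArg Subtype.val hij
      have h2 := e.injective (g.injective h)
      exact (Prod.mk.injEq _ _ _ _ ▸ h2).1
    · rw [mem_filter]
      refine ⟨mem_univ _, fun i => ?_⟩
      rw [hpb]
      rfl
  have h1 := (card_le_card hsub).trans card_biUnion_le
  calc _ ≤ (∑ by' : (Fin 3 → Fin 3) × (Fin 3 ↪ {x // x ∈ Δ}),
        (univ.filter (fun g : Perm Ω => ∀ i, g (pb by'.1 i) =
          (by'.2.trans (Function.Embedding.subtype _)) i)).card) *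
        (Fintype.card Ω).descFactorial 3 := Nat.mul_le_mul_right _ h1
    _ = ∑ by' : (Fin 3 → Fin 3) × (Fin 3 ↪ {x // x ∈ Δ}), Fintype.card (Perm Ω) := by
        rw [sum_mul]
        exact sum_congr rfl fun by' _ => card_fiber _ _
    _ = _ := by
        rw [sum_const, card_univ, Fintype.card_prod, Fintype.card_embedding_eq,
          Fintype.card_fun, Fintype.card_fin, smul_eq_mul, Fintype.card_coe]
        norm_num

end Pool.Agent.T9h47.MM
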