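import Mathlib
import Pool.Agent.T9h47.MM.Grp

/-!
# Weight spaces for three disjoint 3-cycles
-/

set_option autoImplicit false
set_option linter.unusedSectionVars false

namespace Pool.Agent.T9h47.MM

open Finset Equiv Equiv.Perm
open Pool.Agent.T9h47.SF

variable {Ω : Type} [Fintype Ω] [DecidableEq Ω]
variable {K V : Type*} [Field K] [AddCommGroup V] [Module K V]

theorem fin3_aux : ∀ i : Fin 3, i ≠ i + 1 ∧ i ≠ i + 2 ∧ i + 1 ≠ i + 2 ∧
    ∀ j, j = i ∨ j = i + 1 ∨ j = i + 2 := by decide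

/-- the common eigenspace of the three 3-cycles of `e` with eigenvalues `χ` has a subspace of
dimension `q` with an invariant complement -/
def WD (ρ : Perm Ω →* (V ≃ₗ[K] V)) (e : Fin 3 × Fin 3 ↪ Ω) (χ : Fin 3 → K) (q : ℕ) : Prop :=
  ∃ (j : (Fin q → K) →ₗ[K] V) (p : V →ₗ[K] (Fin q → K)), (∀ x, p (j x) = x) ∧
    (∀ i x, ρ (cyc e i) (j x) = χ i • j x) ∧ ∀ i v, p (ρ (cyc e i) v) = χ i • p v

theorem WD.flip {ρ : Perm Ω →* (V ≃ₗ[K] V)} {e : Fin 3 × Fin 3 ↪ Ω} {χ : Fin 3 → K} {q : ℕ}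
    (h : WD ρ e χ q) (h0 : ∀ i, χ i ≠ 0) (i : Fin 3) :
    WD ρ e (Function.update χ i (χ i)⁻¹) q := by
  obtain ⟨j, p, h1, h2, h3⟩ := h
  have hff : flp e i * flp e i = 1 := swap_mul_self _ _
  have hmul : ∀ (a b : Perm Ω) v, ρ (a * b) v = ρ a (ρ b v) := by
    intro a b v
    rw [map_mul]
    rfl
  have hone : ∀ v, ρ 1 v = v := by
    intro v
    rw [map_one]
    rfl
  have hinv : (flp e i)⁻¹ = flp e i := swap_inv _ _
  have hc1 : cyc e i * flp e i = flp e i * (cyc e i)⁻¹ := by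
    have h4 := flp_cyc e i
    rw [← h4, hinv]
    simp only [← mul_assoc]
    rw [hff, one_mul]
  have hc2 : flp e i * cyc e i = (cyc e i)⁻¹ * flp e i := by
    have h4 := flp_cyc e i
    rw [← h4, hinv]
    simp only [mul_assoc]
    rw [hff, mul_one]
  refine ⟨(ρ (flp e i)).toLinearMap ∘ₗ j, p ∘ₗ (ρ (flp e i)).toLinearMap, ?_, ?_, ?_⟩
  · intro x
    change p (ρ (flp e i) (ρ (flp e i) (j x))) = x
    rw [← hmul, hff, hone, h1]
  · intro i' x
    change ρ (cyc e i') (ρ (flp e i) (j x)) = _ • ρ (flp e i) (j x)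
    by_cases hi : i' = i
    · rw [hi, Function.update_self, ← hmul, hc1, hmul, ← map_smul]
      congr 1
      have h4 := h2 i x
      have h5 : ρ (cyc e i)⁻¹ (ρ (cyc e i) (j x)) = j x := by
        rw [← hmul, inv_mul_cancel, hone]
      rw [h4, map_smul] at h5
      rw [← h5, smul_smul, inv_mul_cancel₀ (h0 i), one_smul, h5]
    · rw [Function.update_of_ne hi, ← hmul, ← flp_comm e (Ne.symm hi), hmul, h2, map_smul]
  · intro i' v
    change p (ρ (flp e i) (ρ (cyc e i') v)) = _ • p (ρ (flp e i) v)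
    by_cases hi : i' = i
    · rw [hi, Function.update_self, ← hmul, hc2, hmul]
      have h5 := h3 i (ρ (cyc e i)⁻¹ (ρ (flp e i) v))
      rw [← hmul, mul_inv_cancel, hone] at h5
      rw [h5, smul_smul, inv_mul_cancel₀ (h0 i), one_smul]
    · rw [Function.update_of_ne hi, ← hmul, flp_comm e (Ne.symm hi), hmul, h3]

/-! ### projections -/

/-- three times the projection to the `c`-eigenspace of an operator of order three -/
def Q (A : Module.End K V) (c : K) : Module.End K V := 1 + (c * c) • A + c • (A * A)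

theorem mul_Q {A : Module.End K V} {c : K} (hA : A * (A * A) = 1) (hc : c * (c * c) = 1) :
    A * Q A c = c • Q A c := by
  unfold Q
  rw [mul_add, mul_add, mul_one, mul_smul_comm, mul_smul_comm, hA, smul_add, smul_add, smul_smul,
    smul_smul, hc, one_smul]
  abel

theorem Q_mul {A : Module.End K V} {c : K} (hA : A * (A * A) = 1) (hc : c * (c * c) = 1) :
    Q A c * A = c • Q A c := by
  unfold Q
  rw [add_mul, add_mul, one_mul, smul_mul_assoc, smul_mul_assoc, mul_assoc, hA, smul_add, smul_add,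
    smul_smul, smul_smul, hc, one_smul]
  abel

theorem Q_mul_Q {A : Module.End K V} {c : K} (hA : A * (A * A) = 1) (hc : c * (c * c) = 1) :
    Q A c * Q A c = (3 : K) • Q A c := by
  have h1 := mul_Q hA hc
  have h2 : A * A * Q A c = (c * c) • Q A c := by
    rw [mul_assoc, h1, mul_smul_comm, h1, smul_smul]
  have h4 : ∀ B, Q A c * B = B + (c * c) • (A * B) + c • (A * A * B) := by
    intro B
    unfold Q
    rw [add_mul, add_mul, one_mul, smul_mul_assoc, smul_mul_assoc]
  rw [h4, h1, h2, smul_smul, smul_smul]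
  have h3 : c * c * c = 1 := by rw [mul_assoc]; exact hc
  rw [h3, hc]
  module

theorem commute_Q {A B : Module.End K V} (c : K) (h : A * B = B * A) : Q A c * B = B * Q A c := by
  have h2 : A * A * B = B * (A * A) := by
    rw [mul_assoc, h, ← mul_assoc, h, mul_assoc]
  unfold Q
  rw [add_mul, add_mul, one_mul, smul_mul_assoc, smul_mul_assoc, mul_add, mul_add, mul_one,
    mul_smul_comm, mul_smul_comm, h, h2]

section
variable {w : K} (hw : IsPrimitiveRoot w 3)
include hw

theorem w_ne_one : w ≠ 1 := hw.ne_one (by norm_num)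

theorem w_pow : w * (w * w) = 1 := by
  have h := hw.pow_eq_one
  rw [pow_succ, pow_two] at h
  rw [← mul_assoc]
  exact h

theorem w_sum : 1 + w + w * w = 0 := by
  have h1 := w_pow hw
  have h2 : (w - 1) * (1 + w + w * w) = 0 := by
    linear_combination h1
  rcases mul_eq_zero.1 h2 with h | h
  · exact absurd (sub_eq_zero.1 h) (w_ne_one hw)
  · exact h

theorem three_ne : (3 : K) ≠ 0 := by
  intro h3
  have h1 := w_sum hw
  have h2 : (w - 1) * (w - 1) = 0 := by
    linear_combination h1 - w * h3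
  rcases mul_eq_zero.1 h2 with h | h
  · exact w_ne_one hw (sub_eq_zero.1 h)
  · exact w_ne_one hw (sub_eq_zero.1 h)

theorem sum_Q (A : Module.End K V) : Q A 1 + Q A w + Q A (w * w) = (3 : K) • (1 : Module.End K V) := by
  have h1 := w_sum hw
  have h2 := w_pow hw
  unfold Q
  have h3 : (1 + (1 * 1 : K) • A + (1 : K) • (A * A)) + (1 + (w * w) • A + w • (A * A)) +
      (1 + ((w * w) * (w * w)) • A + (w * w) • (A * A)) = (3 : K) • (1 : Module.End K V) +
        (1 + w * w + (w * w) * (w * w)) • A + (1 + w + w * w) • (A * A) := by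
    module
  rw [h3]
  have h4 : (w * w) * (w * w) = w := by
    linear_combination w * h2
  rw [h4, h1]
  have h5 : 1 + w * w + w = 0 := by
    linear_combination h1
  rw [h5, zero_smul, zero_smul, add_zero, add_zero]

variable [FiniteDimensional K V]

theorem finrank_range_add (A B : Module.End K V) :
    Module.finrank K (LinearMap.range (A + B)) ≤
      Module.finrank K (LinearMap.range A) + Module.finrank K (LinearMap.range B) := by
  have h1 : LinearMap.range (A + B) ≤ LinearMap.range A ⊔ LinearMap.range B := by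
    rintro _ ⟨x, rfl⟩
    exact Submodule.add_mem_sup ⟨x, rfl⟩ ⟨x, rfl⟩
  exact (Submodule.finrank_mono h1).trans (Submodule.finrank_add_le_finrank_add_finrank _ _)

theorem finrank_range_smul (A : Module.End K V) {c : K} (hc : c ≠ 0) :
    Module.finrank K (LinearMap.range (c • A)) = Module.finrank K (LinearMap.range A) := by
  rw [LinearMap.range_smul _ _ hc]

theorem split_three (N A : Module.End K V) :
    ∃ c, (c = 1 ∨ c = w ∨ c = w * w) ∧ Module.finrank K (LinearMap.range N) ≤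
      3 * Module.finrank K (LinearMap.range (N * Q A c)) := by
  have h1 : (3 : K) • N = N * Q A 1 + N * Q A w + N * Q A (w * w) := by
    rw [← mul_add, ← mul_add, sum_Q hw, mul_smul_comm, mul_one]
  have h2 : Module.finrank K (LinearMap.range N) ≤
      Module.finrank K (LinearMap.range (N * Q A 1)) +
      Module.finrank K (LinearMap.range (N * Q A w)) +
      Module.finrank K (LinearMap.range (N * Q A (w * w))) := by
    rw [← finrank_range_smul hw N (three_ne hw), h1]
    exact (finrank_range_add hw _ _).trans (Nat.add_le_add_right (finrank_range_add hw _ _) _)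
  by_contra hcon
  push Not at hcon
  have h3 := hcon 1 (Or.inl rfl)
  have h4 := hcon w (Or.inr (Or.inl rfl))
  have h5 := hcon (w * w) (Or.inr (Or.inr rfl))
  omega

theorem split_two (A : Module.End K V) (hA : A * (A * A) = 1) :
    ∃ c, (c = w ∨ c = w * w) ∧ Module.finrank K (LinearMap.range (A - 1)) ≤
      2 * Module.finrank K (LinearMap.range (Q A c)) := by
  have hone : (1 : K) * (1 * 1) = 1 := by norm_num
  have hw3 := w_pow hw
  have hw4 : (w * w) * ((w * w) * (w * w)) = 1 := by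
    linear_combination (w * w * w + 1) * hw3
  have hb : ∀ c : K, c * (c * c) = 1 → (A - 1) * Q A c = (c - 1) • Q A c := by
    intro c hc
    rw [sub_mul, one_mul, mul_Q hA hc, sub_smul, one_smul]
  have h1 : (3 : K) • (A - 1) = (w - 1) • Q A w + (w * w - 1) • Q A (w * w) := by
    have h2 : (3 : K) • (A - 1) = (A - 1) * Q A 1 + (A - 1) * Q A w + (A - 1) * Q A (w * w) := by
      rw [← mul_add, ← mul_add, sum_Q hw, mul_smul_comm, mul_one]
    rw [h2, hb 1 hone, hb w hw3, hb _ hw4, sub_self, zero_smul, zero_add]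
  have hww : w * w ≠ 1 := by
    intro h
    rw [h, mul_one] at hw3
    exact w_ne_one hw hw3
  have h2 : Module.finrank K (LinearMap.range (A - 1)) ≤
      Module.finrank K (LinearMap.range (Q A w)) +
      Module.finrank K (LinearMap.range (Q A (w * w))) := by
    rw [← finrank_range_smul hw (A - 1) (three_ne hw), h1]
    refine (finrank_range_add hw _ _).trans ?_
    rw [finrank_range_smul hw _ (sub_ne_zero.2 (w_ne_one hw)),
      finrank_range_smul hw _ (sub_ne_zero.2 hww)]
  by_contra hcon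
  push Not at hcon
  have h4 := hcon w (Or.inl rfl)
  have h5 := hcon (w * w) (Or.inr rfl)
  omega

theorem cube_of {c : K} (hc : c = 1 ∨ c = w ∨ c = w * w) : c * (c * c) = 1 := by
  have hw3 := w_pow hw
  rcases hc with h | h | h
  · rw [h]; norm_num
  · rw [h]; exact hw3
  · rw [h]; linear_combination (w * w * w + 1) * hw3

/-- from an eigenprojection of rank `≥ q` to weight data -/
theorem wd_of_proj (ρ : Perm Ω →* (V ≃ₗ[K] V)) (e : Fin 3 × Fin 3 ↪ Ω) (χ : Fin 3 → K) (q : ℕ)
    (P : Module.End K V) (h1 : ∀ i, (ρ (cyc e i)).toLinearMap * P = χ i • P)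
    (h2 : ∀ i, P * (ρ (cyc e i)).toLinearMap = χ i • P) (h3 : P * P = (27 : K) • P)
    (hq : q ≤ Module.finrank K (LinearMap.range P)) : WD ρ e χ q := by
  have h27 : (27 : K) ≠ 0 := by
    have h : (27 : K) = 3 * 3 * 3 := by norm_num
    rw [h]
    exact mul_ne_zero (mul_ne_zero (three_ne hw) (three_ne hw)) (three_ne hw)
  obtain ⟨b, hb⟩ : ∃ b : Module.Basis (Fin (Module.finrank K (LinearMap.range P))) K
      (LinearMap.range P), b = Module.finBasis K _ := ⟨_, rfl⟩
  obtain ⟨v, hv⟩ : ∃ v : Fin q → V, v = fun i => ((b (Fin.castLE hq i) : LinearMap.range P) : V) :=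
    ⟨_, rfl⟩
  have hli : LinearIndependent K v := by
    have h4 := (b.linearIndependent.comp _ (Fin.castLE_injective hq)).map'
      (Submodule.subtype (LinearMap.range P)) (Submodule.ker_subtype _)
    rw [hv]
    exact h4
  obtain ⟨j, hj⟩ : ∃ j : (Fin q → K) →ₗ[K] V, j = Fintype.linearCombination K v := ⟨_, rfl⟩
  have hinj : Function.Injective j := by
    rw [hj]
    exact hli.fintypeLinearCombination_injective
  obtain ⟨p', hp'⟩ := LinearMap.exists_leftInverse_of_injective j (LinearMap.ker_eq_bot.2 hinj)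
  have hp'' : ∀ x, p' (j x) = x := fun x => by
    have h := congrArg (fun f => f x) hp'
    exact h
  have hjr : ∀ x, ∃ y, P y = j x := by
    intro x
    have h4 : j x ∈ LinearMap.range P := by
      rw [hj, Fintype.linearCombination_apply]
      refine Submodule.sum_mem _ fun i _ => Submodule.smul_mem _ _ ?_
      rw [hv]
      exact (b (Fin.castLE hq i)).2
    exact h4
  have happ : ∀ (A B : Module.End K V) x, (A * B) x = A (B x) := fun _ _ _ => rfl
  have hPj : ∀ x, P (j x) = (27 : K) • j x := by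
    intro x
    obtain ⟨y, hy⟩ := hjr x
    rw [← hy, ← happ, h3, LinearMap.smul_apply]
  refine ⟨j, (27 : K)⁻¹ • (p' ∘ₗ P), ?_, ?_, ?_⟩
  · intro x
    rw [LinearMap.smul_apply, LinearMap.comp_apply, hPj, map_smul, hp'', smul_smul,
      inv_mul_cancel₀ h27, one_smul]
  · intro i x
    obtain ⟨y, hy⟩ := hjr x
    have h5 := congrArg (fun f => f y) (h1 i)
    change ρ (cyc e i) (P y) = χ i • P y at h5
    rw [hy] at h5
    exact h5
  · intro i x
    have h5 := congrArg (fun f => f x) (h2 i)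
    change P (ρ (cyc e i) x) = χ i • P x at h5
    rw [LinearMap.smul_apply, LinearMap.comp_apply, h5, map_smul, LinearMap.smul_apply,
      LinearMap.comp_apply, smul_comm]

theorem exists_WD_aux (ρ : Perm Ω →* (V ≃ₗ[K] V)) (e : Fin 3 × Fin 3 ↪ Ω) (i0 i1 i2 : Fin 3)
    (h01 : i0 ≠ i1) (h02 : i0 ≠ i2) (h12 : i1 ≠ i2) (hall : ∀ i, i = i0 ∨ i = i1 ∨ i = i2)
    (q : ℕ) (hq : 18 * q < Module.finrank K
      (LinearMap.range ((ρ (cyc e i0)).toLinearMap - 1 : Module.End K V)) + 18) :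
    ∃ χ : Fin 3 → K, χ i0 ≠ 1 ∧ (∀ i, χ i * (χ i * χ i) = 1) ∧ WD ρ e χ q := by
  obtain ⟨A, hA⟩ : ∃ A : Fin 3 → Module.End K V, ∀ i, A i = (ρ (cyc e i)).toLinearMap :=
    ⟨_, fun _ => rfl⟩
  have hmul : ∀ (a b : Perm Ω), (ρ (a * b)).toLinearMap =
      ((ρ a).toLinearMap * (ρ b).toLinearMap : Module.End K V) := by
    intro a b
    rw [map_mul]
    rfl
  have hA3 : ∀ i, A i * (A i * A i) = 1 := by
    intro i
    rw [hA, ← hmul, ← hmul, cyc_pow, map_one]
    rfl
  have hcomm : ∀ i j, A i * A j = A j * A i := by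
    intro i j
    rw [hA, hA, ← hmul, ← hmul, cyc_comm]
  rw [← hA] at hq
  obtain ⟨c0, hc0, hr0⟩ := split_two hw (A i0) (hA3 i0)
  obtain ⟨c1, hc1, hr1⟩ := split_three hw (Q (A i0) c0) (A i1)
  obtain ⟨c2, hc2, hr2⟩ := split_three hw (Q (A i0) c0 * Q (A i1) c1) (A i2)
  have hc0' := cube_of hw (Or.inr hc0)
  have hc1' := cube_of hw hc1
  have hc2' := cube_of hw hc2
  have hc01 : c0 ≠ 1 := by
    rcases hc0 with h | h
    · rw [h]; exact w_ne_one hw
    · intro h1
      have h2 := w_pow hw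
      rw [← h, h1, mul_one] at h2
      exact w_ne_one hw h2
  obtain ⟨Q0, hQ0⟩ : ∃ Q0, Q0 = Q (A i0) c0 := ⟨_, rfl⟩
  obtain ⟨Q1, hQ1⟩ : ∃ Q1, Q1 = Q (A i1) c1 := ⟨_, rfl⟩
  obtain ⟨Q2, hQ2⟩ : ∃ Q2, Q2 = Q (A i2) c2 := ⟨_, rfl⟩
  rw [← hQ0] at hr0 hr1 hr2
  rw [← hQ1] at hr1 hr2
  rw [← hQ2] at hr2
  have hQA : ∀ i i' c, Q (A i) c * A i' = A i' * Q (A i) c := fun i i' c => commute_Q c (hcomm i i')
  have hQQ : ∀ i i' c c', Q (A i) c * Q (A i') c' = Q (A i') c' * Q (A i) c := by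
    intro i i' c c'
    exact (commute_Q c (commute_Q c' (hcomm i' i)).symm)
  have e01 : Q0 * Q1 = Q1 * Q0 := by rw [hQ0, hQ1]; exact hQQ _ _ _ _
  have e02 : Q0 * Q2 = Q2 * Q0 := by rw [hQ0, hQ2]; exact hQQ _ _ _ _
  have e12 : Q1 * Q2 = Q2 * Q1 := by rw [hQ1, hQ2]; exact hQQ _ _ _ _
  have s0 : Q0 * Q0 = (3 : K) • Q0 := by rw [hQ0]; exact Q_mul_Q (hA3 _) hc0'
  have s1 : Q1 * Q1 = (3 : K) • Q1 := by rw [hQ1]; exact Q_mul_Q (hA3 _) hc1'
  have s2 : Q2 * Q2 = (3 : K) • Q2 := by rw [hQ2]; exact Q_mul_Q (hA3 _) hc2'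
  have l0 : A i0 * Q0 = c0 • Q0 := by rw [hQ0]; exact mul_Q (hA3 _) hc0'
  have l1 : A i1 * Q1 = c1 • Q1 := by rw [hQ1]; exact mul_Q (hA3 _) hc1'
  have l2 : A i2 * Q2 = c2 • Q2 := by rw [hQ2]; exact mul_Q (hA3 _) hc2'
  have a0 : ∀ i, Q0 * A i = A i * Q0 := by rw [hQ0]; exact fun i => hQA _ _ _
  have a1 : ∀ i, Q1 * A i = A i * Q1 := by rw [hQ1]; exact fun i => hQA _ _ _
  have a2 : ∀ i, Q2 * A i = A i * Q2 := by rw [hQ2]; exact fun i => hQA _ _ _
  have hleft : ∀ i, A i * (Q0 * Q1 * Q2) =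
      (if i = i0 then c0 else if i = i1 then c1 else c2) • (Q0 * Q1 * Q2) := by
    intro i
    rcases hall i with h | h | h
    · rw [if_pos h, h]
      simp only [← mul_assoc]
      rw [l0, smul_mul_assoc, smul_mul_assoc]
    · have hne : i ≠ i0 := fun h' => h01 (h'.symm.trans h)
      rw [if_neg hne, if_pos h, h, e01]
      simp only [← mul_assoc]
      rw [l1, smul_mul_assoc, smul_mul_assoc]
    · have hne : i ≠ i0 := fun h' => h02 (h'.symm.trans h)
      have hne' : i ≠ i1 := fun h' => h12 (h'.symm.trans h)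
      rw [if_neg hne, if_neg hne', h, mul_assoc Q0, e12, ← mul_assoc Q0, e02]
      simp only [← mul_assoc]
      rw [l2, smul_mul_assoc, smul_mul_assoc]
  have hcom : ∀ i, Q0 * Q1 * Q2 * A i = A i * (Q0 * Q1 * Q2) := by
    intro i
    rw [mul_assoc, a2, ← mul_assoc, mul_assoc Q0, a1, ← mul_assoc, a0]
    simp only [mul_assoc]
  refine ⟨fun i => if i = i0 then c0 else if i = i1 then c1 else c2, ?_, ?_, ?_⟩
  · dsimp only
    rw [if_pos rfl]
    exact hc01
  · intro i
    dsimp only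
    split_ifs
    · exact hc0'
    · exact hc1'
    · exact hc2'
  · refine wd_of_proj hw ρ e _ q (Q0 * Q1 * Q2) ?_ ?_ ?_ (by omega)
    · intro i
      rw [← hA]
      exact hleft i
    · intro i
      rw [← hA, hcom]
      exact hleft i
    · have h1 : Q0 * Q1 * Q2 * (Q0 * Q1 * Q2) = (Q0 * Q0) * (Q1 * Q1) * (Q2 * Q2) := by
        calc Q0 * Q1 * Q2 * (Q0 * Q1 * Q2) = Q0 * Q1 * (Q2 * Q0) * (Q1 * Q2) := by
              simp only [mul_assoc]
          _ = Q0 * Q1 * (Q0 * Q2) * (Q1 * Q2) := by rw [e02]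
          _ = Q0 * (Q1 * Q0) * (Q2 * Q1) * Q2 := by simp only [mul_assoc]
          _ = Q0 * (Q0 * Q1) * (Q1 * Q2) * Q2 := by rw [e01, e12]
          _ = _ := by simp only [mul_assoc]
      rw [h1, s0, s1, s2]
      simp only [smul_mul_assoc, mul_smul_comm, smul_smul]
      norm_num

/-- weight data of large dimension with a nontrivial eigenvalue at `i0` -/
theorem exists_WD (ρ : Perm Ω →* (V ≃ₗ[K] V)) (e : Fin 3 × Fin 3 ↪ Ω) (i0 : Fin 3)
    (q : ℕ) (hq : 18 * q < Module.finrank K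
      (LinearMap.range ((ρ (cyc e i0)).toLinearMap - 1 : Module.End K V)) + 18) :
    ∃ χ : Fin 3 → K, χ i0 ≠ 1 ∧ (∀ i, χ i * (χ i * χ i) = 1) ∧ WD ρ e χ q :=
  exists_WD_aux hw ρ e i0 (i0 + 1) (i0 + 2) (fin3_aux i0).1 (fin3_aux i0).2.1
    (fin3_aux i0).2.2.1 (fin3_aux i0).2.2.2 q hq

end

/-! ### the moved part -/

/-- the subspace spanned by all `g v - v`, `g` even -/
def moved (ρ : Perm Ω →* (V ≃ₗ[K] V)) : Submodule K V :=
  Submodule.span K {x | ∃ (g : Perm Ω) (v : V), sign g = 1 ∧ x = ρ g v - v}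

theorem finrank_iSup_le [FiniteDimensional K V] {ι : Type*} [DecidableEq ι] (S : Finset ι)
    (f : ι → Submodule K V) (r : ℕ) (h : ∀ x ∈ S, Module.finrank K (f x) ≤ r) :
    Module.finrank K (⨆ x ∈ S, f x : Submodule K V) ≤ S.card * r := by
  induction S using Finset.induction_on with
  | empty => simp
  | insert a S ha ih =>
    rw [Finset.iSup_insert, card_insert_of_notMem ha]
    have h1 := ih (fun x hx => h x (mem_insert_of_mem hx))
    have h2 := h a (mem_insert_self _ _)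
    refine (Submodule.finrank_add_le_finrank_add_finrank _ _).trans ?_
    rw [add_mul, one_mul, add_comm]
    exact Nat.add_le_add h1 h2

theorem finrank_moved_le [FiniteDimensional K V] (ρ : Perm Ω →* (V ≃ₗ[K] V))
    (e : Fin 3 × Fin 3 ↪ Ω) (i : Fin 3) :
    Module.finrank K (moved ρ) ≤ (Fintype.card Ω - 2) * Module.finrank K
      (LinearMap.range ((ρ (cyc e i)).toLinearMap - 1 : Module.End K V)) := by
  classical
  obtain ⟨y, hy⟩ : ∃ y, y = e (i, 1) := ⟨_, rfl⟩
  obtain ⟨z, hz⟩ : ∃ z, z = e (i, 2) := ⟨_, rfl⟩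
  have hyz : y ≠ z := by
    rw [hy, hz]; exact e_ne e (fun h => absurd h.2 (by decide))
  have hmul : ∀ (a b : Perm Ω) v, ρ (a * b) v = ρ a (ρ b v) := by
    intro a b v
    rw [map_mul]
    rfl
  have hone : ∀ v, ρ 1 v = v := by
    intro v
    rw [map_one]
    rfl
  obtain ⟨M, hM⟩ : ∃ M : Submodule K V, M = ⨆ x ∈ (univ \ {y, z} : Finset Ω), LinearMap.range
    ((ρ (swap x y * swap y z)).toLinearMap - 1 : Module.End K V) := ⟨_, rfl⟩
  -- the subgroup of permutations moving vectors only by elements of `M`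
  obtain ⟨G, hG⟩ : ∃ G : Subgroup (Perm Ω), ∀ g, g ∈ G ↔ ∀ v, ρ g v - v ∈ M := by
    refine ⟨⟨⟨⟨{g | ∀ v, ρ g v - v ∈ M}, ?_⟩, ?_⟩, ?_⟩, fun g => Iff.rfl⟩
    · intro a b ha hb v
      have h1 := M.add_mem (ha (ρ b v)) (hb v)
      rw [sub_add_sub_cancel, ← hmul] at h1
      exact h1
    · intro v
      rw [hone, sub_self]
      exact M.zero_mem
    · intro a ha v
      have h1 := M.neg_mem (ha (ρ a⁻¹ v))
      rw [← hmul, mul_inv_cancel, hone, neg_sub] at h1
      exact h1
  have hle : moved ρ ≤ M := by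
    refine Submodule.span_le.2 ?_
    rintro _ ⟨g, v, hg, rfl⟩
    have h1 : g ∈ G := by
      refine gen_star G hyz (fun x hxy hxz => ?_) hg
      rw [hG]
      intro u
      rw [hM]
      refine Submodule.mem_iSup_of_mem x (Submodule.mem_iSup_of_mem ?_ ?_)
      · simp [hxy, hxz]
      · exact ⟨u, rfl⟩
    exact (hG g).1 h1 v
  have hr : ∀ x ∈ (univ \ {y, z} : Finset Ω), Module.finrank K (LinearMap.range
      ((ρ (swap x y * swap y z)).toLinearMap - 1 : Module.End K V)) ≤ Module.finrank K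
      (LinearMap.range ((ρ (cyc e i)).toLinearMap - 1 : Module.End K V)) := by
    intro x hx
    rw [mem_sdiff, mem_insert, mem_singleton, not_or] at hx
    obtain ⟨h, hh⟩ : ∃ h : Perm Ω, h (e (i, 0)) = x ∧ h (e (i, 1)) = y ∧ h (e (i, 2)) = z := by
      refine ⟨swap (e (i, 0)) x, swap_apply_left _ _, ?_, ?_⟩
      · rw [← hy]
        refine swap_apply_of_ne_of_ne ?_ (Ne.symm hx.2.1)
        rw [hy]; exact e_ne e (fun h => absurd h.2 (by decide))
      · rw [← hz]
        refine swap_apply_of_ne_of_ne ?_ (Ne.symm hx.2.2)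
        rw [hz]; exact e_ne e (fun h => absurd h.2 (by decide))
    have hconj : swap x y * swap y z = h * cyc e i * h⁻¹ := by
      unfold cyc
      rw [← hh.1, ← hh.2.1, ← hh.2.2, swap_apply_apply, swap_apply_apply]
      group
    have hmap : (LinearMap.range ((ρ (swap x y * swap y z)).toLinearMap - 1 : Module.End K V)) =
        (LinearMap.range ((ρ (cyc e i)).toLinearMap - 1 : Module.End K V)).map
          (ρ h).toLinearMap := by
      apply le_antisymm
      · rintro _ ⟨v, rfl⟩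
        refine ⟨ρ (cyc e i) (ρ h⁻¹ v) - ρ h⁻¹ v, ⟨ρ h⁻¹ v, rfl⟩, ?_⟩
        change ρ h (ρ (cyc e i) (ρ h⁻¹ v) - ρ h⁻¹ v) = ρ (swap x y * swap y z) v - v
        rw [map_sub, ← hmul, ← hmul, ← hmul, ← hconj, mul_inv_cancel, hone]
      · rintro _ ⟨_, ⟨v, rfl⟩, rfl⟩
        refine ⟨ρ h v, ?_⟩
        change ρ (swap x y * swap y z) (ρ h v) - ρ h v = ρ h (ρ (cyc e i) v - v)
        rw [hconj, map_sub, ← hmul, ← hmul, mul_assoc, inv_mul_cancel, mul_one]
    rw [hmap]
    exact Submodule.finrank_map_le _ _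
  refine (Submodule.finrank_mono hle).trans ?_
  rw [hM]
  refine (finrank_iSup_le _ _ _ hr).trans ?_
  apply Nat.mul_le_mul_right
  rw [card_sdiff_of_subset (subset_univ _), card_univ, card_pair hyz]

end Pool.Agent.T9h47.MM
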