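import Mathlib
import Pool.Agent.T9h47.MM.Wt

/-!
# The core argument
-/

set_option autoImplicit false
set_option linter.unusedSectionVars false

namespace Pool.Agent.T9h47.MM

open Finset Equiv Equiv.Perm
open Pool.Agent.T9h47.SF
open scoped commutatorElement

variable {Ω : Type} [Fintype Ω] [DecidableEq Ω]
variable {K : Type*} [Field K]

section act
variable {V V' : Type*} [AddCommGroup V] [Module K V] [AddCommGroup V'] [Module K V']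

/-- the action of a permutation on linear maps `V' → V` -/
def act (ρ : Perm Ω →* (V ≃ₗ[K] V)) (ρ' : Perm Ω →* (V' ≃ₗ[K] V')) (σ : Perm Ω)
    (X : V' →ₗ[K] V) : V' →ₗ[K] V :=
  (ρ σ).toLinearMap ∘ₗ X ∘ₗ (ρ' σ⁻¹).toLinearMap

theorem act_mul (ρ : Perm Ω →* (V ≃ₗ[K] V)) (ρ' : Perm Ω →* (V' ≃ₗ[K] V')) (σ τ : Perm Ω)
    (X : V' →ₗ[K] V) : act ρ ρ' (σ * τ) X = act ρ ρ' σ (act ρ ρ' τ X) := by
  unfold act
  rw [mul_inv_rev, map_mul, map_mul]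
  rfl

theorem act_one (ρ : Perm Ω →* (V ≃ₗ[K] V)) (ρ' : Perm Ω →* (V' ≃ₗ[K] V'))
    (X : V' →ₗ[K] V) : act ρ ρ' 1 X = X := by
  unfold act
  rw [inv_one, map_one, map_one]
  rfl

end act

theorem comm_inv {M L : Type*} [CommRing L] [IsDomain L] (A : Perm Ω → M → M)
    (hA : ∀ σ τ X, A (σ * τ) X = A σ (A τ X)) (hone : ∀ X, A 1 X = X) (f : M → L) {σ τ : Perm Ω}
    (hσ : ∃ c c' : L, c ≠ 0 ∧ c' ≠ 0 ∧ ∀ X, c' * f (A σ X) = c * f X)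
    (hτ : ∃ c c' : L, c ≠ 0 ∧ c' ≠ 0 ∧ ∀ X, c' * f (A τ X) = c * f X) (X : M) :
    f (A ⁅σ, τ⁆ X) = f X := by
  obtain ⟨c, c', hc, hc', h1⟩ := hσ
  obtain ⟨d, d', hd, hd', h2⟩ := hτ
  have h3 : ∀ X, f (A σ (A τ X)) = f (A τ (A σ X)) := by
    intro X
    have h4 : c' * d' * f (A σ (A τ X)) = c' * d' * f (A τ (A σ X)) := by
      have h5 := h1 (A τ X)
      have h6 := h2 X
      have h7 := h2 (A σ X)
      have h8 := h1 X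
      linear_combination d' * h5 + c * h6 - c' * h7 - d * h8
    exact mul_left_cancel₀ (mul_ne_zero hc' hd') h4
  have h4 := h3 (A (σ⁻¹ * τ⁻¹) X)
  rw [← hA, ← hA, ← hA, ← hA] at h4
  have h5 : σ * τ * (σ⁻¹ * τ⁻¹) = ⁅σ, τ⁆ := by
    rw [commutatorElement_def]; group
  have h6 : τ * σ * (σ⁻¹ * τ⁻¹) = 1 := by group
  rw [h5, h6, hone] at h4
  exact h4

section
variable {V₁ V₂ V₃ : Type*} [AddCommGroup V₁] [Module K V₁] [AddCommGroup V₂] [Module K V₂]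
  [AddCommGroup V₃] [Module K V₃]
variable {L : Type*} [CommRing L] [IsDomain L] [Algebra K L]
variable (ρ₁ : Perm Ω →* (V₁ ≃ₗ[K] V₁)) (ρ₂ : Perm Ω →* (V₂ ≃ₗ[K] V₂))
  (ρ₃ : Perm Ω →* (V₃ ≃ₗ[K] V₃))
variable {T : Type} [Fintype T]
variable (α : T → (V₂ →ₗ[K] V₁) →ₗ[K] L) (β : T → (V₃ →ₗ[K] V₂) →ₗ[K] L)
  (γ : T → (V₁ →ₗ[K] V₃) →ₗ[K] L)

/-- the terms are permuted by the action -/
def Inv : Prop := ∀ (σ : Perm Ω) (t : T), ∃ t', ∀ X Y Z,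
  α t (act ρ₁ ρ₂ σ X) * β t (act ρ₂ ρ₃ σ Y) * γ t (act ρ₃ ρ₁ σ Z) = α t' X * β t' Y * γ t' Z

theorem exists_supp (hinv : Inv ρ₁ ρ₂ ρ₃ α β γ) (k r : ℕ)
    (hk : Fintype.card T < (Fintype.card Ω).choose k) (hr : Fintype.card T < 2 ^ r)
    (h20 : 20 * r + 5 ≤ Fintype.card Ω) (hk5 : k + 5 ≤ Fintype.card Ω) (t : T) :
    ∃ Δ : Finset Ω, Δ.card < k ∧ ((∀ X Y Z, α t X * β t Y * γ t Z = 0) ∨
      ∀ g, EvOn (univ \ Δ) g → (∀ X, α t (act ρ₁ ρ₂ g X) = α t X) ∧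
        (∀ Y, β t (act ρ₂ ρ₃ g Y) = β t Y) ∧ ∀ Z, γ t (act ρ₃ ρ₁ g Z) = γ t Z) := by
  classical
  obtain ⟨G, hG⟩ : ∃ G : Subgroup (Perm Ω), ∀ g, g ∈ G ↔ ∀ X Y Z,
      α t (act ρ₁ ρ₂ g X) * β t (act ρ₂ ρ₃ g Y) * γ t (act ρ₃ ρ₁ g Z) =
        α t X * β t Y * γ t Z := by
    refine ⟨⟨⟨⟨{g | ∀ X Y Z,
      α t (act ρ₁ ρ₂ g X) * β t (act ρ₂ ρ₃ g Y) * γ t (act ρ₃ ρ₁ g Z) =
        α t X * β t Y * γ t Z}, ?_⟩, ?_⟩, ?_⟩, fun g => Iff.rfl⟩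
    · intro a b ha hb X Y Z
      rw [act_mul, act_mul, act_mul, ha, hb]
    · intro X Y Z
      rw [act_one, act_one, act_one]
    · intro a ha X Y Z
      have h1 := ha (act ρ₁ ρ₂ a⁻¹ X) (act ρ₂ ρ₃ a⁻¹ Y) (act ρ₃ ρ₁ a⁻¹ Z)
      rw [← act_mul, ← act_mul, ← act_mul, mul_inv_cancel, act_one, act_one, act_one] at h1
      exact h1.symm
  choose c hc using fun σ : Perm Ω => hinv σ t
  obtain ⟨Δ, _, hΔ1, hΔ2⟩ := support_sharp G (univ : Finset Ω) (fun σ => c σ⁻¹) (by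
    intro σ τ _ _ h
    rw [hG]
    intro X Y Z
    have h1 := hc σ⁻¹ (act ρ₁ ρ₂ τ X) (act ρ₂ ρ₃ τ Y) (act ρ₃ ρ₁ τ Z)
    have h2 := hc τ⁻¹ (act ρ₁ ρ₂ τ X) (act ρ₂ ρ₃ τ Y) (act ρ₃ ρ₁ τ Z)
    rw [h, ← h2] at h1
    rw [← act_mul, ← act_mul, ← act_mul, ← act_mul, ← act_mul, ← act_mul, inv_mul_cancel,
      act_one, act_one, act_one] at h1
    exact h1) r k hr (by rw [card_univ]; exact h20) (by rw [card_univ]; exact hk)
  refine ⟨Δ, hΔ1, ?_⟩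
  by_cases hz : ∀ X Y Z, α t X * β t Y * γ t Z = 0
  · exact Or.inl hz
  right
  push Not at hz
  obtain ⟨X0, Y0, Z0, hne⟩ := hz
  have hcard : 5 ≤ (univ \ Δ : Finset Ω).card := by
    rw [card_sdiff_of_subset (subset_univ _), card_univ]
    omega
  have hne' : ∀ g ∈ G, α t (act ρ₁ ρ₂ g X0) ≠ 0 ∧ β t (act ρ₂ ρ₃ g Y0) ≠ 0 ∧
      γ t (act ρ₃ ρ₁ g Z0) ≠ 0 := by
    intro g hg
    have h1 := (hG g).1 hg X0 Y0 Z0
    rw [← h1] at hne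
    exact ⟨left_ne_zero_of_mul (left_ne_zero_of_mul hne),
      right_ne_zero_of_mul (left_ne_zero_of_mul hne), right_ne_zero_of_mul hne⟩
  have hx0 := left_ne_zero_of_mul (left_ne_zero_of_mul hne)
  have hy0 := right_ne_zero_of_mul (left_ne_zero_of_mul hne)
  have hz0 := right_ne_zero_of_mul hne
  have sα : ∀ g ∈ G, ∃ c c' : L, c ≠ 0 ∧ c' ≠ 0 ∧ ∀ X, c' * α t (act ρ₁ ρ₂ g X) = c * α t X := by
    intro g hg
    obtain ⟨n1, n2, n3⟩ := hne' g hg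
    refine ⟨β t Y0 * γ t Z0, β t (act ρ₂ ρ₃ g Y0) * γ t (act ρ₃ ρ₁ g Z0),
      mul_ne_zero hy0 hz0, mul_ne_zero n2 n3, fun X => ?_⟩
    have h1 := (hG g).1 hg X Y0 Z0
    linear_combination h1
  have sβ : ∀ g ∈ G, ∃ c c' : L, c ≠ 0 ∧ c' ≠ 0 ∧ ∀ X, c' * β t (act ρ₂ ρ₃ g X) = c * β t X := by
    intro g hg
    obtain ⟨n1, n2, n3⟩ := hne' g hg
    refine ⟨α t X0 * γ t Z0, α t (act ρ₁ ρ₂ g X0) * γ t (act ρ₃ ρ₁ g Z0),
      mul_ne_zero hx0 hz0, mul_ne_zero n1 n3, fun Y => ?_⟩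
    have h1 := (hG g).1 hg X0 Y Z0
    linear_combination h1
  have sγ : ∀ g ∈ G, ∃ c c' : L, c ≠ 0 ∧ c' ≠ 0 ∧ ∀ X, c' * γ t (act ρ₃ ρ₁ g X) = c * γ t X := by
    intro g hg
    obtain ⟨n1, n2, n3⟩ := hne' g hg
    refine ⟨α t X0 * β t Y0, α t (act ρ₁ ρ₂ g X0) * β t (act ρ₂ ρ₃ g Y0),
      mul_ne_zero hx0 hy0, mul_ne_zero n1 n2, fun Z => ?_⟩
    have h1 := (hG g).1 hg X0 Y0 Z
    linear_combination h1
  obtain ⟨G', hG'⟩ : ∃ G' : Subgroup (Perm Ω), ∀ g, g ∈ G' ↔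
      (∀ X, α t (act ρ₁ ρ₂ g X) = α t X) ∧
        (∀ Y, β t (act ρ₂ ρ₃ g Y) = β t Y) ∧ ∀ Z, γ t (act ρ₃ ρ₁ g Z) = γ t Z := by
    refine ⟨⟨⟨⟨{g | (∀ X, α t (act ρ₁ ρ₂ g X) = α t X) ∧
        (∀ Y, β t (act ρ₂ ρ₃ g Y) = β t Y) ∧ ∀ Z, γ t (act ρ₃ ρ₁ g Z) = γ t Z},
        ?_⟩, ?_⟩, ?_⟩, fun g => Iff.rfl⟩
    · rintro a b ⟨a1, a2, a3⟩ ⟨b1, b2, b3⟩
      refine ⟨fun X => ?_, fun X => ?_, fun X => ?_⟩
      · rw [act_mul, a1, b1]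
      · rw [act_mul, a2, b2]
      · rw [act_mul, a3, b3]
    · refine ⟨fun X => ?_, fun X => ?_, fun X => ?_⟩
      · rw [act_one]
      · rw [act_one]
      · rw [act_one]
    · rintro a ⟨a1, a2, a3⟩
      refine ⟨fun X => ?_, fun X => ?_, fun X => ?_⟩
      · rw [← a1, ← act_mul, mul_inv_cancel, act_one]
      · rw [← a2, ← act_mul, mul_inv_cancel, act_one]
      · rw [← a3, ← act_mul, mul_inv_cancel, act_one]
  intro g hg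
  rw [← hG']
  refine good_of_comm G' hcard (fun a b ha hb => ?_) hg
  rw [hG']
  have ha' := hΔ2 a ha
  have hb' := hΔ2 b hb
  exact ⟨comm_inv _ (act_mul ρ₁ ρ₂) (act_one ρ₁ ρ₂) _ (sα a ha') (sα b hb'),
    comm_inv _ (act_mul ρ₂ ρ₃) (act_one ρ₂ ρ₃) _ (sβ a ha') (sβ b hb'),
    comm_inv _ (act_mul ρ₃ ρ₁) (act_one ρ₃ ρ₁) _ (sγ a ha') (sγ b hb')⟩

end

section
variable {V : Type*} [AddCommGroup V] [Module K V]

theorem adjust {ρ : Perm Ω →* (V ≃ₗ[K] V)} {e : Fin 3 × Fin 3 ↪ Ω} {χ : Fin 3 → K} {q : ℕ}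
    (h : WD ρ e χ q) (h1 : ∀ i, χ i * (χ i * χ i) = 1) (i : Fin 3) {c : K} (hc : c ≠ 1)
    (hc3 : c * (c * c) = 1) :
    ∃ χ' : Fin 3 → K, WD ρ e χ' q ∧ (∀ i, χ' i * (χ' i * χ' i) = 1) ∧ χ' i ≠ c ∧
      ∀ i', i' ≠ i → χ' i' = χ i' := by
  have h0 : ∀ i, χ i ≠ 0 := fun i => left_ne_zero_of_mul_eq_one (h1 i)
  by_cases hic : χ i = c
  · refine ⟨_, h.flip h0 i, ?_, ?_, ?_⟩
    · intro i'
      by_cases hi' : i' = i
      · rw [hi', Function.update_self, ← mul_inv, ← mul_inv, h1, inv_one]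
      · rw [Function.update_of_ne hi']
        exact h1 i'
    · rw [Function.update_self, hic]
      intro h2
      have hc0 : c ≠ 0 := left_ne_zero_of_mul_eq_one hc3
      have h3 : c * c = 1 := by
        have h4 : c * c⁻¹ = 1 := mul_inv_cancel₀ hc0
        rw [h2] at h4
        exact h4
      rw [h3, mul_one] at hc3
      exact hc hc3
    · intro i' hi'
      rw [Function.update_of_ne hi']
  · exact ⟨χ, h, h1, hic, fun _ _ => rfl⟩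

end

section
variable {V₁ V₂ V₃ : Type*} [AddCommGroup V₁] [Module K V₁] [AddCommGroup V₂] [Module K V₂]
  [AddCommGroup V₃] [Module K V₃] [FiniteDimensional K V₁] [FiniteDimensional K V₂]
  [FiniteDimensional K V₃]
variable {L : Type*} [CommRing L] [IsDomain L] [Algebra K L]
variable (ρ₁ : Perm Ω →* (V₁ ≃ₗ[K] V₁)) (ρ₂ : Perm Ω →* (V₂ ≃ₗ[K] V₂))
  (ρ₃ : Perm Ω →* (V₃ ≃ₗ[K] V₃))
variable {T : Type} [Fintype T]
variable (α : T → (V₂ →ₗ[K] V₁) →ₗ[K] L) (β : T → (V₃ →ₗ[K] V₂) →ₗ[K] L)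
  (γ : T → (V₁ →ₗ[K] V₃) →ₗ[K] L)

/-- `X ↦ j X p` as a linear map -/
def sandwich {A B V V' : Type*} [AddCommGroup A] [Module K A] [AddCommGroup B] [Module K B]
    [AddCommGroup V] [Module K V] [AddCommGroup V'] [Module K V']
    (j : A →ₗ[K] V) (p : V' →ₗ[K] B) : (B →ₗ[K] A) →ₗ[K] (V' →ₗ[K] V) where
  toFun X := j ∘ₗ X ∘ₗ p
  map_add' X Y := by
    apply LinearMap.ext
    intro x
    simp
  map_smul' c X := by
    apply LinearMap.ext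
    intro x
    simp

theorem eig {V V' : Type*} [AddCommGroup V] [Module K V] [AddCommGroup V'] [Module K V']
    (ρ : Perm Ω →* (V ≃ₗ[K] V)) (ρ' : Perm Ω →* (V' ≃ₗ[K] V')) (a : Perm Ω) {q q' : ℕ}
    (j : (Fin q → K) →ₗ[K] V) (p : V' →ₗ[K] (Fin q' → K)) {c c' : K} (hc' : c' ≠ 0)
    (hj : ∀ x, ρ a (j x) = c • j x) (hp : ∀ v, p (ρ' a v) = c' • p v)
    (f : (V' →ₗ[K] V) →ₗ[K] L) (hf : ∀ X, f (act ρ ρ' a X) = f X)
    (X : (Fin q' → K) →ₗ[K] (Fin q → K)) (hne : f (sandwich j p X) ≠ 0) : c = c' := by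
  have h1 : act ρ ρ' a (sandwich j p X) = (c * c'⁻¹) • sandwich j p X := by
    apply LinearMap.ext
    intro v
    change ρ a (j (X (p (ρ' a⁻¹ v)))) = (c * c'⁻¹) • j (X (p v))
    have h2 : p (ρ' a⁻¹ v) = c'⁻¹ • p v := by
      have h3 := hp (ρ' a⁻¹ v)
      have h4 : ρ' a (ρ' a⁻¹ v) = v := by
        have h5 : ρ' (a * a⁻¹) v = v := by
          rw [mul_inv_cancel, map_one]; rfl
        rw [map_mul] at h5
        exact h5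
      rw [h4] at h3
      rw [h3, smul_smul, inv_mul_cancel₀ hc', one_smul]
    rw [h2, map_smul, map_smul, map_smul, hj, smul_smul, mul_comm]
  have h2 := hf (sandwich j p X)
  rw [h1, map_smul] at h2
  have h3 : (c * c'⁻¹ - 1) • f (sandwich j p X) = 0 := by
    rw [sub_smul, h2, one_smul, sub_self]
  rw [Algebra.smul_def] at h3
  rcases mul_eq_zero.1 h3 with h4 | h4
  · have h5 : c * c'⁻¹ - 1 = 0 := by
      have h6 : Function.Injective (algebraMap K L) := FaithfulSMul.algebraMap_injective K L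
      exact (map_eq_zero_iff _ h6).1 h4
    rw [sub_eq_zero] at h5
    rw [← mul_one c', ← h5, mul_comm c, mul_inv_cancel_left₀ hc']
  · exact absurd h4 hne

/-- **The core theorem.** -/
theorem core (hinv : Inv ρ₁ ρ₂ ρ₃ α β γ) (k r : ℕ)
    (hk : Fintype.card T < (Fintype.card Ω).choose k) (hr : Fintype.card T < 2 ^ r)
    (h20 : 20 * r + 5 ≤ Fintype.card Ω) (hk5 : k + 5 ≤ Fintype.card Ω) (q₁ q₂ q₃ : ℕ)
    (e₀ : Fin 3 × Fin 3 ↪ Ω)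
    (H1 : ∀ e : Fin 3 × Fin 3 ↪ Ω, ∃ χ : Fin 3 → K, χ 0 ≠ 1 ∧ (∀ i, χ i * (χ i * χ i) = 1) ∧
      WD ρ₁ e χ q₁)
    (H2 : ∀ e : Fin 3 × Fin 3 ↪ Ω, ∃ χ : Fin 3 → K, χ 1 ≠ 1 ∧ (∀ i, χ i * (χ i * χ i) = 1) ∧
      WD ρ₂ e χ q₂)
    (H3 : ∀ e : Fin 3 × Fin 3 ↪ Ω, ∃ χ : Fin 3 → K, χ 2 ≠ 1 ∧ (∀ i, χ i * (χ i * χ i) = 1) ∧
      WD ρ₃ e χ q₃) :
    ∃ (U : Finset T) (ι₁ : ((Fin q₂ → K) →ₗ[K] (Fin q₁ → K)) →ₗ[K] (V₂ →ₗ[K] V₁))
      (ι₂ : ((Fin q₃ → K) →ₗ[K] (Fin q₂ → K)) →ₗ[K] (V₃ →ₗ[K] V₂))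
      (ι₃ : ((Fin q₁ → K) →ₗ[K] (Fin q₃ → K)) →ₗ[K] (V₁ →ₗ[K] V₃)),
      U.card * (Fintype.card Ω).descFactorial 3 ≤
        27 * (k - 1).descFactorial 3 * Fintype.card T ∧
      (∀ X Y Z, LinearMap.trace K V₁ (ι₁ X ∘ₗ ι₂ Y ∘ₗ ι₃ Z) =
        LinearMap.trace K (Fin q₁ → K) (X ∘ₗ Y ∘ₗ Z)) ∧
      ∀ t, t ∉ U → ∀ X Y Z, α t (ι₁ X) * β t (ι₂ Y) * γ t (ι₃ Z) = 0 := by
  classical
  choose Δ hΔ1 hΔ2 using fun t => exists_supp ρ₁ ρ₂ ρ₃ α β γ hinv k r hk hr h20 hk5 t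
  -- the pigeonhole
  obtain ⟨g, hg⟩ : ∃ g : Perm Ω, (univ.filter (fun t => ∀ i, ∃ b, g (e₀ (i, b)) ∈ Δ t)).card *
      (Fintype.card Ω).descFactorial 3 ≤ 27 * (k - 1).descFactorial 3 * Fintype.card T := by
    by_contra hcon
    push Not at hcon
    have h1 : ∑ _g : Perm Ω, 27 * (k - 1).descFactorial 3 * Fintype.card T <
        ∑ g : Perm Ω, (univ.filter (fun t => ∀ i, ∃ b, g (e₀ (i, b)) ∈ Δ t)).card *
          (Fintype.card Ω).descFactorial 3 :=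
      sum_lt_sum_of_nonempty univ_nonempty (fun g _ => hcon g)
    have h2 : ∑ g : Perm Ω, (univ.filter (fun t => ∀ i, ∃ b, g (e₀ (i, b)) ∈ Δ t)).card *
          (Fintype.card Ω).descFactorial 3 = ∑ t,
          (univ.filter (fun g : Perm Ω => ∀ i, ∃ b, g (e₀ (i, b)) ∈ Δ t)).card *
          (Fintype.card Ω).descFactorial 3 := by
      rw [← sum_mul, ← sum_mul]
      congr 1
      simp only [card_filter]
      rw [sum_comm]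
    rw [h2] at h1
    have h3 : ∑ t, (univ.filter (fun g : Perm Ω => ∀ i, ∃ b, g (e₀ (i, b)) ∈ Δ t)).card *
          (Fintype.card Ω).descFactorial 3 ≤
          ∑ _t : T, 27 * (k - 1).descFactorial 3 * Fintype.card (Perm Ω) := by
      refine sum_le_sum fun t _ => (card_hit e₀ (Δ t)).trans ?_
      apply Nat.mul_le_mul_right
      apply Nat.mul_le_mul_left
      have hlt := hΔ1 t
      exact Nat.descFactorial_le 3 (by omega)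
    have h4 := h1.trans_le h3
    rw [sum_const, sum_const, card_univ, card_univ, smul_eq_mul, smul_eq_mul] at h4
    apply lt_irrefl _ (h4.trans_eq _)
    ring
  obtain ⟨e, he⟩ : ∃ e : Fin 3 × Fin 3 ↪ Ω, ∀ x, e x = g (e₀ x) :=
    ⟨e₀.trans g.toEmbedding, fun _ => rfl⟩
  obtain ⟨χ1, a1, a2, a3⟩ := H1 e
  obtain ⟨χ2, b1, b2, b3⟩ := H2 e
  obtain ⟨χ3, c1, c2, c3⟩ := H3 e
  obtain ⟨χ2', b3', b2', b4, b5⟩ := adjust b3 b2 0 a1 (a2 0)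
  have b1' : χ2' 1 ≠ 1 := by
    rw [b5 1 (by decide)]; exact b1
  obtain ⟨χ3', c3', c2', c4, c5⟩ := adjust c3 c2 1 b1' (b2' 1)
  have c1' : χ3' 2 ≠ 1 := by
    rw [c5 2 (by decide)]; exact c1
  obtain ⟨χ1', a3', a2', a4, a5⟩ := adjust a3 a2 2 c1' (c2' 2)
  have a1' : χ2' 0 ≠ χ1' 0 := by
    rw [a5 0 (by decide)]; exact b4
  have n1 : ∀ i, χ1' i ≠ 0 := fun i => left_ne_zero_of_mul_eq_one (a2' i)
  have n2 : ∀ i, χ2' i ≠ 0 := fun i => left_ne_zero_of_mul_eq_one (b2' i)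
  have n3 : ∀ i, χ3' i ≠ 0 := fun i => left_ne_zero_of_mul_eq_one (c2' i)
  obtain ⟨j1, p1, x1, y1, z1⟩ := a3'
  obtain ⟨j2, p2, x2, y2, z2⟩ := b3'
  obtain ⟨j3, p3, x3, y3, z3⟩ := c3'
  refine ⟨univ.filter (fun t => ∀ i, ∃ b, g (e₀ (i, b)) ∈ Δ t), sandwich j1 p2, sandwich j2 p3,
    sandwich j3 p1, hg, ?_, ?_⟩
  · intro X Y Z
    have h1 : sandwich j1 p2 X ∘ₗ sandwich j2 p3 Y ∘ₗ sandwich j3 p1 Z =
        (j1 ∘ₗ (X ∘ₗ Y ∘ₗ Z)) ∘ₗ p1 := by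
      apply LinearMap.ext
      intro v
      change j1 (X (p2 (j2 (Y (p3 (j3 (Z (p1 v)))))))) = j1 (X (Y (Z (p1 v))))
      rw [x2, x3]
    rw [h1, LinearMap.trace_comp_comm']
    congr 1
    apply LinearMap.ext
    intro v
    change p1 (j1 (X (Y (Z v)))) = X (Y (Z v))
    rw [x1]
  · intro t ht X Y Z
    rw [mem_filter, not_and] at ht
    have ht' := ht (mem_univ _)
    push Not at ht'
    obtain ⟨i, hi⟩ := ht'
    rcases hΔ2 t with h0 | h0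
    · exact h0 _ _ _
    have hev : EvOn (univ \ Δ t) (cyc e i) := by
      refine evOn_cyc' e i fun b => ?_
      rw [mem_sdiff, he]
      exact ⟨mem_univ _, hi b⟩
    obtain ⟨f1, f2, f3⟩ := h0 _ hev
    by_contra hne
    have m1 := left_ne_zero_of_mul (left_ne_zero_of_mul hne)
    have m2 := right_ne_zero_of_mul (left_ne_zero_of_mul hne)
    have m3 := right_ne_zero_of_mul hne
    have k1 := eig ρ₁ ρ₂ (cyc e i) j1 p2 (n2 i) (y1 i) (z2 i) (α t) f1 X m1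
    have k2 := eig ρ₂ ρ₃ (cyc e i) j2 p3 (n3 i) (y2 i) (z3 i) (β t) f2 Y m2
    have k3 := eig ρ₃ ρ₁ (cyc e i) j3 p1 (n1 i) (y3 i) (z1 i) (γ t) f3 Z m3
    have hi3 : i = 0 ∨ i = 1 ∨ i = 2 := by
      clear * -
      decide +revert
    rcases hi3 with h | h | h
    · rw [h] at k1; exact a1' k1.symm
    · rw [h] at k2; exact c4 k2.symm
    · rw [h] at k3; exact a4 k3.symm

end

end Pool.Agent.T9h47.MM
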